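import Pool.Agent.helper74.NL.Spec

/-!
# Project nl: (MP_70a088_an), module CT0: the Cauchy transform determines the line field
-/

set_option autoImplicit false

open Complex Metric Set Filter Topology MeasureTheory MPS Pool.Agent.helper98.ILF

noncomputable section

namespace NLF

theorem CT0_bound (h : CTB_stmt) (μ : ℂ → ℂ) (hm : Measurable μ) (hb : ∀ z, ‖μ z‖ ≤ 1)
    (hs : ∀ z, μ z ≠ 0 → ‖z‖ < 4) (b : ℂ) :
    ∫ z : ℂ, ‖μ z / (z - b)‖ ≤ 80 := by
  set ν : ℂ → ℂ := fun z => ((‖μ z‖ : ℝ) : ℂ) * ((z - b) / ((‖z - b‖ : ℝ) : ℂ)) with hν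
  have hνm : Measurable ν := by
    refine (Complex.measurable_ofReal.comp hm.norm).mul ?_
    refine (measurable_id.sub_const b).div ?_
    exact Complex.measurable_ofReal.comp (measurable_id.sub_const b).norm
  have hν1 : ∀ z, ‖ν z‖ ≤ 1 := by
    intro z
    simp only [hν, norm_mul, norm_div, Complex.norm_real, norm_norm]
    rcases eq_or_ne ‖z - b‖ 0 with h0 | h0
    · rw [h0]; simp
    · rw [div_self h0, mul_one]; exact hb z
  have hν2 : ∀ z, ν z ≠ 0 → ‖z‖ < 4 := by
    intro z hz
    refine hs z (fun h0 => hz ?_)
    simp [hν, h0]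
  have h80 := (h ν hνm hν1 hν2).2.1 b
  have e : CT ν b = ((∫ z : ℂ, ‖μ z / (z - b)‖ : ℝ) : ℂ) := by
    rw [← integral_complex_ofReal]
    unfold CT
    refine integral_congr_ae (Eventually.of_forall fun z => ?_)
    simp only [hν, norm_div]
    rcases eq_or_ne (z - b) 0 with h0 | h0
    · simp [h0]
    · have h1 : ((‖z - b‖ : ℝ) : ℂ) ≠ 0 := by
        simpa using h0
      push_cast
      field_simp
  rw [e, Complex.norm_real, Real.norm_eq_abs] at h80
  exact (le_abs_self _).trans h80

theorem CT0_circ (b : ℂ) (r : ℝ) (hr : 0 < r) (z : ℂ) (hz : z ∉ sphere b r) :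
    (∮ w in C(b, r), (z - w)⁻¹) = (ball b r).indicator (fun _ => -(2 * Real.pi * I)) z := by
  have hneg : (∮ w in C(b, r), (z - w)⁻¹) = -(∮ w in C(b, r), (w - z)⁻¹) := by
    unfold circleIntegral
    rw [← intervalIntegral.integral_neg]
    congr 1
    ext θ
    show deriv (circleMap b r) θ • (z - circleMap b r θ)⁻¹ =
      -(deriv (circleMap b r) θ • (circleMap b r θ - z)⁻¹)
    rw [← smul_neg, ← inv_neg, neg_sub]
  rw [hneg]
  by_cases h1 : z ∈ ball b r
  · rw [circleIntegral.integral_sub_inv_of_mem_ball h1, indicator_of_mem h1]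
  · rw [indicator_of_notMem h1]
    have h2 : z ∉ closedBall b r := by
      intro h
      rw [← ball_union_sphere] at h
      rcases h with h | h
      · exact h1 h
      · exact hz h
    have hne : ∀ w ∈ closedBall b r, w - z ≠ 0 := by
      intro w hw h0
      rw [sub_eq_zero] at h0
      rw [h0] at hw
      exact h2 hw
    rw [neg_eq_zero]
    refine Complex.circleIntegral_eq_zero_of_differentiable_on_off_countable hr.le
      (s := ∅) countable_empty ?_ ?_
    · intro w hw
      exact ((continuousAt_id.sub continuousAt_const).inv₀ (hne w hw)).continuousWithinAt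
    · intro w hw
      exact (differentiableAt_id.sub_const z).inv (hne w (ball_subset_closedBall hw.1))

theorem CT0_ball (h : CTB_stmt) (μ : ℂ → ℂ) (hm : Measurable μ) (hb : ∀ z, ‖μ z‖ ≤ 1)
    (hs : ∀ z, μ z ≠ 0 → ‖z‖ < 4) (h0 : ∀ b, CT μ b = 0) (b : ℂ) (r : ℝ) (hr : 0 < r) :
    ∫ z in closedBall b r, μ z = 0 := by
  -- the kernel
  set F : ℝ → ℂ → ℂ := fun θ z => deriv (circleMap b r) θ * (μ z / (z - circleMap b r θ)) with hF
  have hcm : Measurable (circleMap b r) := (continuous_circleMap b r).measurable
  have hdm : Measurable (deriv (circleMap b r)) := measurable_deriv _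
  have hFm : Measurable (Function.uncurry F) := by
    have e : Function.uncurry F = fun p : ℝ × ℂ => deriv (circleMap b r) p.1 *
      (μ p.2 / (p.2 - circleMap b r p.1)) := by
      ext p; rfl
    rw [e]
    exact (hdm.comp measurable_fst).mul ((hm.comp measurable_snd).div
      (measurable_snd.sub (hcm.comp measurable_fst)))
  have hFi : Integrable (Function.uncurry F)
      ((volume.restrict (Ioc 0 (2 * Real.pi))).prod (volume : Measure ℂ)) := by
    rw [integrable_prod_iff hFm.aestronglyMeasurable]
    constructor
    · refine Eventually.of_forall fun θ => ?_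
      have := ((h μ hm hb hs).1 (circleMap b r θ)).const_mul (deriv (circleMap b r) θ)
      exact this
    · refine Integrable.mono' (g := fun _ => r * 80) ?_ ?_ ?_
      · exact integrable_const _
      · exact hFm.aestronglyMeasurable.norm.integral_prod_right'
      · refine Eventually.of_forall fun θ => ?_
        rw [Real.norm_eq_abs, abs_of_nonneg (integral_nonneg fun z => norm_nonneg _)]
        have e : ∀ z, ‖Function.uncurry F (θ, z)‖ = r * ‖μ z / (z - circleMap b r θ)‖ := by
          intro z
          simp only [Function.uncurry, hF, norm_mul, deriv_circleMap]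
          simp [circleMap, abs_of_pos hr]
        simp_rw [e]
        rw [integral_const_mul]
        exact mul_le_mul_of_nonneg_left (CT0_bound h μ hm hb hs _) hr.le
  have hsw := integral_integral_swap hFi
  -- the left side vanishes
  have hL : ∫ θ in Ioc 0 (2 * Real.pi), ∫ z : ℂ, F θ z = 0 := by
    have e : ∀ θ, ∫ z : ℂ, F θ z = 0 := by
      intro θ
      have := h0 (circleMap b r θ)
      unfold CT at this
      simp only [hF]
      rw [integral_const_mul, this, mul_zero]
    simp_rw [e]
    simp
  rw [hL] at hsw
  -- the right side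
  have hR : ∫ z : ℂ, ∫ θ in Ioc 0 (2 * Real.pi), F θ z =
      ∫ z : ℂ, (ball b r).indicator (fun z => -(2 * Real.pi * I) * μ z) z := by
    refine integral_congr_ae ?_
    have hnull : ∀ᵐ z : ℂ, z ∉ sphere b r := by
      have := Measure.addHaar_sphere (volume : Measure ℂ) b r
      exact measure_eq_zero_iff_ae_notMem.mp this
    filter_upwards [hnull] with z hz
    have hc := CT0_circ b r hr z hz
    have e1 : ∫ θ in Ioc 0 (2 * Real.pi), F θ z = μ z * (∮ w in C(b, r), (z - w)⁻¹) := by
      unfold circleIntegral
      rw [intervalIntegral.integral_of_le (by positivity), ← integral_const_mul]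
      refine integral_congr_ae (Eventually.of_forall fun θ => ?_)
      simp only [hF, smul_eq_mul]
      rw [div_eq_mul_inv]
      ring
    rw [e1, hc]
    by_cases h1 : z ∈ ball b r
    · rw [indicator_of_mem h1, indicator_of_mem h1]; ring
    · rw [indicator_of_notMem h1, indicator_of_notMem h1]; ring
  rw [hR, integral_indicator measurableSet_ball, integral_const_mul] at hsw
  have h2 : (-(2 * Real.pi * I) : ℂ) ≠ 0 := by
    simp [Real.pi_ne_zero]
  have h3 : ∫ z in ball b r, μ z = 0 := by
    rcases mul_eq_zero.mp hsw.symm with h4 | h4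
    · exact absurd h4 h2
    · exact h4
  rw [← h3]
  refine (setIntegral_congr_set ?_)
  have hnull : ∀ᵐ z : ℂ, z ∉ sphere b r := by
    have := Measure.addHaar_sphere (volume : Measure ℂ) b r
    exact measure_eq_zero_iff_ae_notMem.mp this
  filter_upwards [hnull] with z hz
  have e : (z ∈ closedBall b r) = (z ∈ ball b r) := by
    refine propext ⟨fun h => ?_, fun h => ball_subset_closedBall h⟩
    rw [← ball_union_sphere] at h
    rcases h with h | h
    · exact h
    · exact absurd h hz
  exact e

/-- **CT0** -/
theorem CT0 (h : CTB_stmt) : CT0_stmt := by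
  intro μ hm hb hs h0
  have hloc : LocallyIntegrable μ (volume : Measure ℂ) := by
    intro x
    refine ⟨ball x 1, ball_mem_nhds x one_pos, ?_⟩
    refine Measure.integrableOn_of_bounded (M := 1) ?_ hm.aestronglyMeasurable ?_
    · exact measure_ball_lt_top.ne
    · exact Eventually.of_forall hb
  have key := IsUnifLocDoublingMeasure.ae_tendsto_average (volume : Measure ℂ) hloc 1
  filter_upwards [key] with x hx
  have h1 := hx (ι := ℕ) (l := atTop) (fun _ => x) (fun n => 1 / ((n : ℝ) + 1)) ?_ ?_
  · have h2 : (fun n : ℕ => ⨍ y in closedBall x (1 / ((n : ℝ) + 1)), μ y) = fun _ => 0 := by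
      ext n
      rw [setAverage_eq, CT0_ball h μ hm hb hs h0 x _ (by positivity), smul_zero]
    rw [h2] at h1
    exact tendsto_nhds_unique h1 tendsto_const_nhds
  · refine tendsto_nhdsWithin_iff.mpr ⟨tendsto_one_div_add_atTop_nhds_zero_nat, ?_⟩
    exact Eventually.of_forall fun n => by
      simp only [mem_Ioi]; positivity
  · refine Eventually.of_forall fun n => ?_
    rw [mem_closedBall, dist_self]
    positivity

end NLF
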